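import Pool.Agent.P8H86.EM.Kernel
import Pool.Agent.P8H86.EM.Incomp

/-!
# Incompressibility of edge modification is not inherited by pairs of forbidden graphs

The disproof uses edge editing, with the cycle on four vertices and its complement.
-/

set_option autoImplicit false

namespace Pool.Agent.Results.MP_2df4ce_lc.PseudoSplitEditing

open Pool.Agent.P8H86.EM Pool.Agent.NPC
open Pool.Agent.CK (CoNPSubsetNPPoly)

/-- Assume that `coNP` is not contained in `NP/poly`. Then `C₄`-free edge editing and `2K₂`-free edge
editing are incompressible, while `{C₄, 2K₂}`-free edge editing is solvable in polynomial time and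
has a polynomial kernel. Hence it is false that for every type of modification and all graphs
`H₁`, `H₂`, if the `H₁`-free and the `H₂`-free problems are incompressible then so is the
`{H₁, H₂}`-free problem. -/
theorem result (h : ¬ CoNPSubsetNPPoly) :
    Incompressible .editing {C4} ∧ Incompressible .editing {TwoK2} ∧
    HasPolyKernel .editing {C4, TwoK2} ∧
    (∃ f : List Bool → List Bool, PolyTime f ∧ ∀ (n : ℕ) (G : SimpleGraph (Fin n)) (k : ℕ),
      f (code G k) = [true] ↔ Modifiable .editing {C4, TwoK2} G k) ∧
    ¬ ∀ (M : Modification) (H₁ H₂ : Graph), Incompressible M {H₁} → Incompressible M {H₂} →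
      Incompressible M {H₁, H₂} := by
  have h1 : Incompressible .editing {C4} := fun hk => h (incomp_C4 .editing (Or.inr rfl) hk)
  have h2 : Incompressible .editing {TwoK2} := fun hk => h (incomp_2K2 .editing (Or.inr rfl) hk)
  exact ⟨h1, h2, kernel_both, decide_both, fun hall => hall .editing C4 TwoK2 h1 h2 kernel_both⟩

end Pool.Agent.Results.MP_2df4ce_lc.PseudoSplitEditing
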